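import Pool.Agent.H21.UE.FIN

/-!
# MP_c80192_nt, Q1: positive integers that are sums of `m` units of a number field

For a number field `K` and an integer `m`, the set `N_{K,m}` of the positive integers which are sums
of `m` units of the ring of integers of `K` is finite if and only if `K` has no subfield `F`, of
degree at least `2` and at most `m` and not imaginary quadratic, all of whose conjugates over `ℚ`
lie in `K`.
-/

open NumberField

namespace Pool.Agent.Results.MP_c80192_nt.SumsOfUnits

universe u

/-- the set `N_{K,m}` of the positive integers which are sums of `m` units (not necessarily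
distinct) of the ring of integers of `K` -/
def sumUnits (K : Type u) [Field K] [NumberField K] (m : ℕ) : Set ℕ :=
  {n | 0 < n ∧ ∃ u : Fin m → (𝓞 K)ˣ, (n : 𝓞 K) = ∑ i, (u i : 𝓞 K)}

/-- the field `F` is imaginary quadratic: it has degree `2` over `ℚ` and no real embedding -/
def ImaginaryQuadratic (F : Type u) [Field F] [CharZero F] : Prop :=
  Module.finrank ℚ F = 2 ∧ IsEmpty (F →+* ℝ)

/-- the field `K` contains all conjugates over `ℚ` of its subfield `F`: the minimal polynomial over
`ℚ` of every element of `F` is a product of linear factors over `K` -/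
def ContainsConjugates {K : Type u} [Field K] [CharZero K] (F : IntermediateField ℚ K) : Prop :=
  ∀ x ∈ F, ((minpoly ℚ x).map (algebraMap ℚ K)).Splits

theorem imagQuad_iff {K : Type u} [Field K] [NumberField K] (F : IntermediateField ℚ K) :
    Pool.Agent.H21.UE.ImagQuad F ↔ ImaginaryQuadratic F := by
  unfold Pool.Agent.H21.UE.ImagQuad ImaginaryQuadratic
  refine and_congr_right fun _ => ?_
  constructor
  · intro h
    refine ⟨fun φ => ?_⟩
    have h1 := h (InfinitePlace.mk (Complex.ofRealHom.comp φ))
    refine InfinitePlace.not_isReal_iff_isComplex.2 h1 (InfinitePlace.isReal_mk_iff.2 ?_)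
    rw [ComplexEmbedding.isReal_iff]
    ext x
    rw [ComplexEmbedding.conjugate_coe_eq]
    exact Complex.conj_ofReal _
  · intro h v
    by_contra hv
    rw [InfinitePlace.not_isComplex_iff_isReal] at hv
    exact h.false (InfinitePlace.embedding_of_isReal hv)

/-- **Sums of units.** `N_{K,m}` is finite if and only if `K` has no subfield `F` with
`2 ≤ [F : ℚ] ≤ m`, not imaginary quadratic, all of whose conjugates over `ℚ` lie in `K`. -/
theorem result (K : Type u) [Field K] [NumberField K] (m : ℕ) :
    (sumUnits K m).Finite ↔ ¬ ∃ F : IntermediateField ℚ K,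
      2 ≤ Module.finrank ℚ F ∧ Module.finrank ℚ F ≤ m ∧ ¬ ImaginaryQuadratic F ∧
        ContainsConjugates F := by
  rw [← Set.not_infinite]
  refine not_congr ((Pool.Agent.H21.UE.FIN K m).trans ?_)
  refine exists_congr fun F => ?_
  unfold Pool.Agent.H21.UE.Good ContainsConjugates
  rw [imagQuad_iff]

end Pool.Agent.Results.MP_c80192_nt.SumsOfUnits
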